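import Mathlib
import Pool.Agent.Q29.EqTM
import Pool.Agent.Q165.MonoAlg
import Pool.Agent.H447R2.MZ.Tup

/-!
# Hoffman elements and numbers algebraic over `ℚ(π)`: at every scale at most one is exceptional

The Hoffman elements `ζ({2}^a) = π ^ (2 a) / (2 a + 1)!` are the only ones whose linear independence is known for all
weights. Let `t = ζ(w)` be a further Hoffman element (or any multiple zeta value, or any real number). If Hoffman's
conjecture is true, then for every word `w` with a letter `3` the numbers `π` and `t` are algebraically independent, so no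
number `y + t`, and no number `y t ^ k` with `y ≠ 0`, `k ≠ 0`, with `y` algebraic over `ℚ(π)` (for instance a rational
combination of the `ζ({2}^a)`) is algebraic. If `x` is algebraic of degree at most `D`, some value `P(x)` of a nonconstant
integer polynomial of degree at most `D` is an integer, and its multiples are not uniformly distributed modulo one. The property `AllGood` at the scale `N`
says that for all nonconstant integer polynomials `P` of degree at most `D` and height at most `N ^ κ` and all `M` from `N`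
to `N ^ A`, the multiples of `P(x)` by the integers up to `M`, by their `k`-th powers, `k ≤ K` (even with a real polynomial
of degree less than `k` added), and by the primes up to `M` in each residue class modulo `d ≤ M ^ κ`, are uniformly
distributed modulo one with an error `M ^ (1 - κ)`.

We show: for finitely many numbers `y_i` algebraic over `ℚ(π)` whose differences are transcendental, at every large scale
at most one of the numbers `y_i + t` does not have this property; for finitely many nonzero `y_i` and integers `k_i ≠ 0`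
such that the numbers `y_i ^ k_j / y_j ^ k_i` are transcendental, at every large scale at most one of the numbers
`y_i t ^ k_i` does not have it. The exponent `κ` does not depend on `t`, so it is the same for all words `w`.

The proof uses the measure of transcendence of `π`, its extension to all transcendental numbers algebraic over `ℚ(π)`, and
the pairs of polynomials with a small value from the starting files `Pool/Agent/TH456/TM/`; roots and the power map reduce
products to pairs `s`, `x s` (`Pool/Agent/Q165/MonoAlg.lean`). The passage to uniform distribution is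
`Pool/Agent/Q29/EqTM.lean`, with an inverse theorem for the sums of Weyl and a form of the estimate of Vinogradov for sums
over primes with a power saving from the starting files (`H373R2/NB`, `W110/HV`).
-/

set_option autoImplicit false

namespace Pool.Agent.Results.MP_c2d7b4_nt.AlgebraOverPi

open Finset Polynomial

/-- The multiples of `x` are uniformly distributed at the scale `M`, with a power saving, along all polynomials of degree
at most `K` and along the primes of all residue classes:

* for every nonzero integer `b` with `|b| ≤ M ^ κ`, every `1 ≤ k ≤ K` and every real polynomial `R` of degree less than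
  `k`, the number of `0 ≤ n < M` with the fractional part of `b x n ^ k + R(n)` in `[u, v)` is `(v - u) M` up to
  `M ^ (1 - κ)`, for all `0 ≤ u ≤ v ≤ 1`;
* for every such `b`, every `1 ≤ d ≤ M ^ κ`, every `r` and every real `β`, the number of primes `p ≤ M` with
  `p ≡ r (mod d)` and the fractional part of `b x p + β` in `[u, v)` is `(v - u)` times the number of all the primes
  `p ≤ M` with `p ≡ r (mod d)`, up to `M ^ (1 - κ)`. -/
def Good (κ : ℝ) (K M : ℕ) (x : ℝ) : Prop :=
  (∀ b : ℤ, b ≠ 0 → |(b : ℝ)| ≤ (M : ℝ) ^ κ → ∀ k : ℕ, 1 ≤ k → k ≤ K → ∀ R : ℝ[X], R.degree < k →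
    ∀ u v : ℝ, 0 ≤ u → u ≤ v → v ≤ 1 →
      |(((range M).filter fun n : ℕ => u ≤ Int.fract (b * x * (n : ℝ) ^ k + R.eval (n : ℝ)) ∧
          Int.fract (b * x * (n : ℝ) ^ k + R.eval (n : ℝ)) < v).card : ℝ) - (v - u) * M| ≤
        (M : ℝ) ^ (1 - κ)) ∧
  (∀ b : ℤ, b ≠ 0 → |(b : ℝ)| ≤ (M : ℝ) ^ κ → ∀ d r : ℕ, 1 ≤ d → (d : ℝ) ≤ (M : ℝ) ^ κ → ∀ β : ℝ,
    ∀ u v : ℝ, 0 ≤ u → u ≤ v → v ≤ 1 →
      |(((range (M + 1)).filter fun p : ℕ => (p.Prime ∧ p ≡ r [MOD d]) ∧
          (u ≤ Int.fract (b * x * p + β) ∧ Int.fract (b * x * p + β) < v)).card : ℝ) -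
        (v - u) * ((range (M + 1)).filter fun p : ℕ => p.Prime ∧ p ≡ r [MOD d]).card| ≤
        (M : ℝ) ^ (1 - κ))

/-- All the values `P(x)`, `P` a nonconstant integer polynomial of degree at most `D` with coefficients bounded by
`N ^ κ`, have uniformly distributed multiples at all the scales `M` from `N` to `N ^ A`. If `x` is algebraic of degree at
most `D`, then this fails for all large `N`, since some `P(x)` is an integer. -/
def AllGood (x : ℝ) (D K : ℕ) (A κ : ℝ) (N : ℕ) : Prop :=
  ∀ P : ℤ[X], 0 < P.natDegree → P.natDegree ≤ D → (∀ n, |(P.coeff n : ℝ)| ≤ (N : ℝ) ^ κ) →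
    ∀ M : ℕ, N ≤ M → (M : ℝ) ≤ (N : ℝ) ^ A → Good κ K M (aeval x P)

/-- the multiple zeta value `ζ(n_1, …, n_r)`, as in the problem -/
noncomputable def zeta {r : ℕ} (n : Fin r → ℕ) : ℝ :=
  ∑' k : {k : Fin r → ℕ // StrictAnti k ∧ ∀ i, 0 < k i}, ∏ i, ((k.1 i : ℝ) ^ (n i))⁻¹

/-- the real number `y` is algebraic over `ℤ[π]` -/
def OverPi (y : ℝ) : Prop := IsAlgebraic (Algebra.adjoin ℤ ({(Real.pi : ℂ)} : Set ℂ)) (y : ℂ)

theorem allGood_iff (x : ℝ) (D K : ℕ) (A κ : ℝ) (N : ℕ) :
    AllGood x D K A κ N ↔ Pool.Agent.Q29.Eqd.AllGood x D K A κ N := Iff.rfl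

theorem zeta_pos {r : ℕ} (n : Fin r → ℕ) (h1 : ∀ i, 1 ≤ n i) (h2 : ∀ h : 0 < r, 2 ≤ n ⟨0, h⟩) :
    0 < zeta n := by
  have hadm : Pool.Agent.H447R2.MZ.Adm (List.ofFn n) := by
    constructor
    · intro a ha
      obtain ⟨i, rfl⟩ := (List.mem_ofFn' _ _).1 ha
      exact h1 i
    · intro a t hat
      cases r with
      | zero => simp at hat
      | succ r =>
        rw [List.ofFn_succ] at hat
        have := (List.cons.inj hat).1
        rw [← this]
        exact h2 (Nat.succ_pos r)
  have hs := Pool.Agent.H447R2.MZ.hasSum_val r n hadm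
  have hsum : Summable (fun k : {k : Fin r → ℕ // StrictAnti k ∧ ∀ i, 0 < k i} =>
      ∏ i, ((k.1 i : ℝ) ^ (n i))⁻¹) := hs.summable
  have hex : StrictAnti (fun i : Fin r => r - (i : ℕ)) ∧ ∀ i : Fin r, 0 < r - (i : ℕ) := by
    refine ⟨fun i j hij => ?_, fun i => ?_⟩
    · have h3 : (i : ℕ) < j := hij
      have h4 := j.2
      show r - (j : ℕ) < r - (i : ℕ)
      omega
    · have := i.2
      omega
  refine hsum.tsum_pos (fun k => prod_nonneg fun i _ => by positivity) ⟨_, hex⟩ ?_
  refine prod_pos fun i _ => ?_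
  have h5 : 0 < r - (i : ℕ) := hex.2 i
  have h6 : (0 : ℝ) < ((r - (i : ℕ) : ℕ) : ℝ) := by exact_mod_cast h5
  positivity

lemma transC {y : ℝ} (h : Transcendental ℤ y) : Transcendental ℤ (y : ℂ) := by
  intro hcon
  apply h
  exact (isAlgebraic_algebraMap_iff (algebraMap ℝ ℂ).injective).1 hcon

/-- **Theorem.** (1) Let `y_1, …, y_m` be real numbers algebraic over `ℚ(π)` such that the differences `y_i - y_j`,
`i ≠ j`, are transcendental, `D`, `K` natural numbers and `A ≥ 1`. There is `κ > 0` such that for every real `t` there is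
`N₀` such that for every `N ≥ N₀` at most one of the numbers `y_i + t` does not have the property `AllGood`.
(2) Let `y_1, …, y_m` be nonzero real numbers algebraic over `ℚ(π)` and `k_1, …, k_m` nonzero integers such that the
numbers `y_i ^ k_j / y_j ^ k_i`, `i ≠ j`, are transcendental. There is `κ > 0` such that for every real `t ≠ 0` there is
`N₀` such that for every `N ≥ N₀` at most one of the numbers `y_i t ^ k_i` does not have the property `AllGood`.
(3) Every multiple zeta value is positive, so `t` can be any Hoffman element. -/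
theorem result :
    (∀ (m : ℕ) (y : Fin m → ℝ), (∀ i, OverPi (y i)) → (∀ i j, i ≠ j → Transcendental ℤ (y i - y j)) →
      ∀ (D K : ℕ) (A : ℝ), 1 ≤ A → ∃ κ : ℝ, 0 < κ ∧ ∀ t : ℝ, ∃ N₀ : ℕ, ∀ N : ℕ, N₀ ≤ N →
        {i | ¬ AllGood (y i + t) D K A κ N}.Subsingleton) ∧
    (∀ (m : ℕ) (y : Fin m → ℝ) (k : Fin m → ℤ), (∀ i, OverPi (y i)) → (∀ i, y i ≠ 0) → (∀ i, k i ≠ 0) →
      (∀ i j, i ≠ j → Transcendental ℤ (y i ^ k j / y j ^ k i)) →
      ∀ (D K : ℕ) (A : ℝ), 1 ≤ A → ∃ κ : ℝ, 0 < κ ∧ ∀ t : ℝ, t ≠ 0 → ∃ N₀ : ℕ, ∀ N : ℕ, N₀ ≤ N →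
        {i | ¬ AllGood (y i * t ^ k i) D K A κ N}.Subsingleton) ∧
    ∀ (r : ℕ) (n : Fin r → ℕ), (∀ i, 1 ≤ n i) → (∀ h : 0 < r, 2 ≤ n ⟨0, h⟩) → 0 < zeta n := by
  have hpi : Pool.Agent.TH456.TM.MeasT ((Real.pi : ℝ) : ℂ) := Pool.Agent.TH456.TM.measT_pi
  refine ⟨?_, ?_, fun r n h1 h2 => zeta_pos n h1 h2⟩
  · intro m y hy hyy D K A hA
    obtain ⟨κ, hκ, h⟩ := Pool.Agent.Q165.MonoAlg.fam_add _ hpi (fun i => ((y i : ℝ) : ℂ)) hy
      (fun i j hij => by
        have := transC (hyy i j hij)
        rwa [Complex.ofReal_sub] at this) D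
    obtain ⟨κ', hκ', hE⟩ := Pool.Agent.Q29.Eqd.allGood_of_TM (ι := Fin m) D K κ A hκ.le hA
    refine ⟨κ', hκ', fun t => ?_⟩
    obtain ⟨C, hC, h1⟩ := h t
    refine hE (fun i => y i + t) ⟨C, hC, ?_⟩
    intro i j hij P Q hP hQ hPD hQD H hPH hQH
    have h2 := h1 i j hij P Q hP hQ hPD hQD H hPH hQH
    simp only [Complex.ofReal_add]
    exact h2
  · intro m y k hy hy0 hk hyy D K A hA
    obtain ⟨κ, hκ, h⟩ := Pool.Agent.Q165.MonoAlg.fam_mul _ hpi (fun i => ((y i : ℝ) : ℂ)) k hy
      (fun i => by exact_mod_cast hy0 i) hk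
      (fun i j hij => by
        have := transC (hyy i j hij)
        rwa [Complex.ofReal_div, Complex.ofReal_zpow, Complex.ofReal_zpow] at this) D
    obtain ⟨κ', hκ', hE⟩ := Pool.Agent.Q29.Eqd.allGood_of_TM (ι := Fin m) D K κ A hκ.le hA
    refine ⟨κ', hκ', fun t ht => ?_⟩
    obtain ⟨C, hC, h1⟩ := h t (by exact_mod_cast ht)
    refine hE (fun i => y i * t ^ k i) ⟨C, hC, ?_⟩
    intro i j hij P Q hP hQ hPD hQD H hPH hQH
    have h2 := h1 i j hij P Q hP hQ hPD hQD H hPH hQH
    simp only [Complex.ofReal_mul, Complex.ofReal_zpow]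
    exact h2

end Pool.Agent.Results.MP_c2d7b4_nt.AlgebraOverPi
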