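import Mathlib
import Pool.Agent.Q217.CS.Main
import Pool.Agent.Q217.CS.T1
import Pool.Agent.Q217.CS.T2
import Pool.Agent.Q217.CS.V
import Pool.Agent.Q217.CS.Rolle
import Pool.Agent.Q217.CS.TaskSign
import Pool.Agent.Q217.CS.Rat
import Pool.Agent.Q217.CS.Zero

/-!
# MP_c2d7b4_nt: Hoffman words with a common last part

Let `U` be a finite set of words whose letters are at least two (the empty word is allowed) and `h ≥ 0`. There is `L` such
that for all integers `c_u`, `u ∈ U`, not all zero, `|c_u| ≤ h`, the number `∑ c_u ζ(u p)` is not zero and has the same sign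
for all words `p` of length at least `L` in positive integers (such that the `ζ(u p)` converge). The first letter belongs
to the largest summation variable, so the words `u p` have the last part `p` (the small variables) in common. For words in
`2`, `3` these are Hoffman elements, of equal or of different weights, and Hoffman's conjecture says that they satisfy no
relation at all.

The proof is elementary. `∑ c_u ζ(u p)` is the sum of `F n = ∑ c_u T u n` with nonnegative weights which are zero for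
`n < length p`; `T u n` are the tails of the multiple zeta values. `F` is eventually of constant sign: divide by the
coefficient of a longest word and take differences (Rolle). It is not eventually zero, since the tails are linearly
independent over the rational functions (criterion of the starting library).
-/

set_option autoImplicit false

namespace Pool.Agent.Results.MP_c2d7b4_nt.CommonSuffix

/-- the multiple zeta value of the list `l`, the first entry belongs to the largest summation variable (the sum of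
`S18393`) -/
noncomputable def mzv (l : List ℕ) : ℝ :=
  ∑' m : {m : Fin l.length → ℕ // StrictAnti m ∧ ∀ i, 0 < m i}, ∏ i, ((m.1 i : ℝ) ^ (l.get i))⁻¹

/-- the words of the convergent multiple zeta values: letters at least one, the first one at least two -/
def Convergent (l : List ℕ) : Prop := (∀ a ∈ l, 1 ≤ a) ∧ ∀ a ∈ l.head?, 2 ≤ a

lemma adm {l : List ℕ} (h : Convergent l) : Pool.Agent.H447R2.MZ.Adm l :=
  ⟨h.1, fun a t hl => h.2 a (by rw [hl]; rfl)⟩

lemma mzv_eq {l : List ℕ} (hl : Pool.Agent.H447R2.MZ.Adm l) : mzv l = Pool.Agent.H447R2.MZ.val l := by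
  have h1 := Pool.Agent.H447R2.MZ.hasSum_val l.length l.get (by rw [List.ofFn_get]; exact hl)
  rw [List.ofFn_get] at h1
  exact h1.tsum_eq

lemma one (U : Finset (List ℕ)) (hU : ∀ u ∈ U, ∀ s ∈ u, 2 ≤ s) (c : List ℕ → ℤ) (hc : ∃ u ∈ U, c u ≠ 0) :
    ∃ L : ℕ, ∃ ε : ℝ, (ε = 1 ∨ ε = -1) ∧ ∀ p : List ℕ, L ≤ p.length → (∀ u ∈ U, Convergent (u ++ p)) →
      0 < ε * ∑ u ∈ U, (c u : ℝ) * mzv (u ++ p) := by
  obtain ⟨L, ε, hε, h⟩ := Pool.Agent.Q217.CS.main_cs Pool.Agent.Q217.CS.t1 Pool.Agent.Q217.CS.t2
    Pool.Agent.Q217.CS.v Pool.Agent.Q217.CS.zero Pool.Agent.Q217.CS.rolle Pool.Agent.Q217.CS.taskSign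
    Pool.Agent.Q217.CS.rat U hU c hc
  refine ⟨L, ε, hε, fun p hp hconv => ?_⟩
  have h1 := h p hp fun u hu => adm (hconv u hu)
  rwa [Finset.sum_congr rfl fun u hu => by rw [mzv_eq (adm (hconv u hu))]]

/-- **Theorem.** Let `U` be a finite set of words with letters at least two and `h ≥ 0`. There is `L` such that for all
integers `c_u`, not all zero, of absolute value at most `h`, there is a sign `ε` with `ε ∑ c_u ζ(u p) > 0` for all words `p`
of length at least `L` for which all `ζ(u p)`, `u ∈ U`, converge. -/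
theorem result (U : Finset (List ℕ)) (hU : ∀ u ∈ U, ∀ s ∈ u, 2 ≤ s) (h : ℕ) :
    ∃ L : ℕ, ∀ c : List ℕ → ℤ, (∀ u ∈ U, |c u| ≤ h) → (∃ u ∈ U, c u ≠ 0) → ∃ ε : ℝ, (ε = 1 ∨ ε = -1) ∧
      ∀ p : List ℕ, L ≤ p.length → (∀ u ∈ U, Convergent (u ++ p)) →
        0 < ε * ∑ u ∈ U, (c u : ℝ) * mzv (u ++ p) := by
  classical
  let ext : (U → ℤ) → List ℕ → ℤ := fun b l => if hl : l ∈ U then b ⟨l, hl⟩ else 0
  have key : ∀ b : U → ℤ, ∃ L : ℕ, (∃ u ∈ U, ext b u ≠ 0) → ∃ ε : ℝ, (ε = 1 ∨ ε = -1) ∧
      ∀ p : List ℕ, L ≤ p.length → (∀ u ∈ U, Convergent (u ++ p)) →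
        0 < ε * ∑ u ∈ U, (ext b u : ℝ) * mzv (u ++ p) := by
    intro b
    by_cases hb : ∃ u ∈ U, ext b u ≠ 0
    · obtain ⟨L, hL⟩ := one U hU (ext b) hb
      exact ⟨L, fun _ => hL⟩
    · exact ⟨0, fun h' => absurd h' hb⟩
  choose Lf hLf using key
  refine ⟨(Fintype.piFinset fun _ : U => Finset.Icc (-(h : ℤ)) h).sup Lf, fun c hc hne => ?_⟩
  have hext : ∀ u ∈ U, ext (fun u : U => c u.1) u = c u := by
    intro u hu
    simp only [ext, hu, dite_true]
  obtain ⟨ε, hε, h1⟩ := hLf (fun u : U => c u.1) (by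
    obtain ⟨u, hu, hcu⟩ := hne
    exact ⟨u, hu, by rw [hext u hu]; exact hcu⟩)
  refine ⟨ε, hε, fun p hp hconv => ?_⟩
  have h2 : Lf (fun u : U => c u.1) ≤ (Fintype.piFinset fun _ : U => Finset.Icc (-(h : ℤ)) h).sup Lf :=
    Finset.le_sup (f := Lf) (by
      rw [Fintype.mem_piFinset]
      intro u
      rw [Finset.mem_Icc]
      exact abs_le.1 (hc u.1 u.2))
  have h3 := h1 p (h2.trans hp) hconv
  rwa [Finset.sum_congr rfl fun u hu => by rw [hext u hu]] at h3

end Pool.Agent.Results.MP_c2d7b4_nt.CommonSuffix
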