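import Mathlib
import Pool.Agent.Q29.LinGood
import Pool.Agent.TH647.NR.Zeta
import Pool.Agent.TH456.TM.Inst
import Pool.Agent.H312R3.M34.Cor

/-!
# Good scales for `1, ζ(2), ζ(3)`, for `1, ζ(3), ζ(2, 2)`, for the `ζ(2, …, 2)`, and one more Hoffman element

Among the Hoffman elements `1, ζ(2), ζ(3), ζ(2, 2), ζ(2, 3), ζ(3, 2), …` the linear independence over the rational numbers is
known for `1, ζ(2), ζ(3)`, for `1, ζ(3), ζ(2, 2)` and for `1, ζ(2), ζ(2, 2), ζ(2, 2, 2), …`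
(`ζ({2}^n) = π ^ (2 n) / (2 n + 1)!`). Let `θ_0, …, θ_m` be `1, ζ(3), π ^ 2`, or `1, ζ(3), π ^ 4`, or `1, π, …, π ^ m`, in
any order, and `t` an arbitrary real number, for instance a further Hoffman element, or any multiple zeta value. We prove:
there are infinitely many scales `N` at which the integer linear forms in `θ_0, …, θ_m, t` of height at most `N ^ κ` have
only the true relations: the values which are not zero are at least `1 / N` in absolute value, and for all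
`x_i = (a_i1 θ_1 + … + a_im θ_m + b_i t) / θ_0`, `i ≤ s`, for which `1, x_1, …, x_s` are linearly independent over the rational
numbers, the multiples of the vector `x` by the integers up to `M`, by their `k`-th powers, `k ≤ K` (even with real
polynomials of degree less than `k` added), and by the primes up to `M` in each residue class modulo `d ≤ M ^ κ` are
uniformly distributed modulo one in the cubes of side `1 / q`, `q ≤ M ^ κ`, with an error `M ^ (1 - κ)`, for all `M` from `N`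
to `N ^ A`. Here `κ` does not depend on `t`. If `θ_0, …, θ_m, t` are linearly dependent (so that Hoffman's conjecture
is false, if `t` is a further Hoffman element) this is the case for all large `N`.

The proof: by the measures of linear independence and elimination two small vectors at neighbouring scales are parallel;
if there were small vectors with a value different from zero at all large scales, all of them would be parallel, and their
values would be zero (`Pool/Agent/Q29/LinGood.lean`). The distribution follows by an inverse theorem for the sums of Weyl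
and a form of the estimate of Vinogradov for sums over primes from the starting files (`H373R2/NB`, `W110/HV`).
-/

set_option autoImplicit false

namespace Pool.Agent.Results.MP_c2d7b4_nt.GoodScales

open Finset Polynomial

/-- The points `y n ∈ ℝ ^ s`, `n ∈ S`, are uniformly distributed modulo one with error `E` in the cubes of side `1 / q`,
`q ≤ Q`. -/
def Equi {s : ℕ} (S : Finset ℕ) (y : ℕ → Fin s → ℝ) (Q E : ℝ) : Prop :=
  ∀ q : ℕ, 1 ≤ q → (q : ℝ) ≤ Q → ∀ ρ : Fin s → ℤ, (∀ j, 0 ≤ ρ j ∧ ρ j < q) →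
    |((S.filter fun n => ∀ j, (ρ j : ℝ) / q ≤ Int.fract (y n j) ∧ Int.fract (y n j) < (ρ j + 1) / q).card : ℝ) -
      S.card / (q : ℝ) ^ s| ≤ E

/-- The multiples of the vector `x` are uniformly distributed modulo one at the scale `M`, with a power saving, along all
polynomials of degree `k ≤ K` (the points `x n ^ k + R(n)`, `0 ≤ n < M`, `R` a vector of real polynomials of degree less
than `k`), and along the primes in all residue classes modulo `d ≤ M ^ κ` (the points `x p + β`, `p ≤ M` prime,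
`p ≡ r (mod d)`). -/
def Joint (κ : ℝ) (K M : ℕ) {s : ℕ} (x : Fin s → ℝ) : Prop :=
  (∀ k : ℕ, 1 ≤ k → k ≤ K → ∀ R : Fin s → ℝ[X], (∀ j, (R j).degree < k) →
    Equi (range M) (fun n j => x j * (n : ℝ) ^ k + (R j).eval (n : ℝ)) ((M : ℝ) ^ κ) ((M : ℝ) ^ (1 - κ))) ∧
  (∀ d r : ℕ, 1 ≤ d → (d : ℝ) ≤ (M : ℝ) ^ κ → ∀ β : Fin s → ℝ,
    Equi ((range (M + 1)).filter fun p => p.Prime ∧ p ≡ r [MOD d]) (fun p j => x j * p + β j) ((M : ℝ) ^ κ)
      ((M : ℝ) ^ (1 - κ)))

/-- The numbers `θ_0, …, θ_m` have the property: for all `s ≥ 1`, `K` and `A ≥ 1` there is `κ > 0` such that for every real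
`t` there is an infinite set `G` of scales `N` with:
(1) every value `∑ a_j θ_j + b t` of an integer form of height at most `N ^ κ` is zero or at least `1 / N` in absolute value;
(2) for all integer vectors `(a_i, b_i)`, `i ≤ s`, of height at most `N ^ κ` such that no nontrivial integer combination
of the numbers `x_i = (∑ a_ij θ_j + b_i t) / θ_0` is an integer, the vector `x` satisfies `Joint κ K M` for all
`N ≤ M ≤ N ^ A`;
and if `θ_0, …, θ_m, t` are linearly dependent over the rational numbers, `G` contains all large integers. -/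
def GoodLaw {m : ℕ} (θ : Fin (m + 1) → ℝ) : Prop :=
  ∀ (s K : ℕ) (A : ℝ), 1 ≤ s → 1 ≤ A → ∃ κ : ℝ, 0 < κ ∧ ∀ t : ℝ, ∃ G : Set ℕ,
    (∀ N ∈ G,
      (∀ (a : Fin (m + 1) → ℤ) (b : ℤ), (∀ j, |(a j : ℝ)| ≤ (N : ℝ) ^ κ) → |(b : ℝ)| ≤ (N : ℝ) ^ κ →
        ∑ j, (a j : ℝ) * θ j + b * t ≠ 0 → 1 / (N : ℝ) ≤ |∑ j, (a j : ℝ) * θ j + b * t|) ∧
      (∀ (a : Fin s → Fin m → ℤ) (b : Fin s → ℤ),
        (∀ i j, |(a i j : ℝ)| ≤ (N : ℝ) ^ κ) → (∀ i, |(b i : ℝ)| ≤ (N : ℝ) ^ κ) →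
        (∀ l : Fin s → ℤ, l ≠ 0 → ∀ u : ℤ,
          ∑ i, (l i : ℝ) * ((∑ j, (a i j : ℝ) * θ j.succ + b i * t) / θ 0) ≠ u) →
        ∀ M : ℕ, N ≤ M → (M : ℝ) ≤ (N : ℝ) ^ A →
          Joint κ K M (fun i => (∑ j, (a i j : ℝ) * θ j.succ + b i * t) / θ 0))) ∧
    G.Infinite ∧
    ((∃ (a : Fin (m + 1) → ℤ) (b : ℤ), (a ≠ 0 ∨ b ≠ 0) ∧ ∑ j, (a j : ℝ) * θ j + b * t = 0) →
      ∃ N₁ : ℕ, ∀ N : ℕ, N₁ ≤ N → N ∈ G)

theorem joint_iff (κ : ℝ) (K M : ℕ) {s : ℕ} (x : Fin s → ℝ) : Joint κ K M x ↔ Pool.Agent.Q29.Eqd.Joint κ K M x :=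
  Iff.rfl

open Pool.Agent.W472.AC in
/-- from a measure of linear independence to the law -/
theorem law_of_meas {m : ℕ} (θ : Fin (m + 1) → ℝ) (h0 : θ 0 ≠ 0)
    (hM : ∃ κ : ℝ, 0 ≤ κ ∧ ∃ c : ℝ, 0 < c ∧ Meas θ κ c) : GoodLaw θ := by
  obtain ⟨μ, hμ, c, hc, hm⟩ := hM
  intro s K A hs hA
  have h0' : 0 < |θ 0| := abs_pos.2 h0
  have hm' : Meas (fun i => θ i / θ 0) μ (c / |θ 0|) := by
    intro a ha H hH hb
    have h1 := hm a ha H hH hb
    have e : ∑ j, (a j : ℝ) * (θ j / θ 0) = (∑ j, (a j : ℝ) * θ j) / θ 0 := by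
      rw [Finset.sum_div]
      exact Finset.sum_congr rfl fun j _ => by ring
    rw [e, abs_div, mul_div_assoc']
    exact div_le_div_of_nonneg_right h1 h0'.le
  obtain ⟨c', hc', h'⟩ := Pool.Agent.TH647.NR.rank_bound _ μ (c / |θ 0|) (by positivity) hm' 1
  obtain ⟨κ, hκ, h⟩ := Pool.Agent.Q29.Eqd.lin_main (fun j : Fin m => θ j.succ / θ 0)
    (((1 : ℕ) : ℝ) + (((1 : ℕ) : ℝ) + 1) * μ) c' (by positivity) hc' (by
      intro t X hX v hv hvX
      obtain ⟨k, hk⟩ := h' t X hX v hv hvX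
      refine ⟨k, ?_⟩
      have e : Pool.Agent.TH647.NR.linr (fun i => θ i / θ 0) t (v k) =
          Pool.Agent.Q29.Eqd.lval (fun j : Fin m => θ j.succ / θ 0) t (v k) := by
        unfold Pool.Agent.TH647.NR.linr Pool.Agent.Q29.Eqd.lval
        rw [Fin.sum_univ_succ]
        simp only [div_self h0, mul_one]
      rw [← e]
      exact hk) s hs K A hA
  refine ⟨κ, hκ, fun t => ?_⟩
  obtain ⟨G, h1, h2, h3⟩ := h (fun _ => t / θ 0)
  obtain ⟨N₀, hN₀, hbig⟩ := Pool.Agent.Q29.Eqd.ev_rpow (1 / 2) (1 / |θ 0|) (by norm_num)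
  have hval : ∀ (a : Fin (m + 1) → ℤ) (b : ℤ),
      Pool.Agent.Q29.Eqd.lval (fun j : Fin m => θ j.succ / θ 0) (fun _ : Fin 1 => t / θ 0) (a, fun _ => b) =
        (∑ j, (a j : ℝ) * θ j + b * t) / θ 0 := by
    intro a b
    unfold Pool.Agent.Q29.Eqd.lval
    rw [Fin.sum_univ_succ (f := fun j => (a j : ℝ) * θ j), add_div, add_div, mul_div_assoc, div_self h0, mul_one,
      Finset.sum_div]
    simp only [Fin.sum_univ_succ, Finset.univ_eq_empty, Finset.sum_empty, add_zero, mul_div_assoc]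
  refine ⟨{N | N ∈ G ∧ N₀ ≤ N}, ?_, ?_, ?_⟩
  · rintro N ⟨hNG, hN⟩
    have hN1 : (1 : ℝ) ≤ N := by exact_mod_cast hN₀.trans hN
    have hN0 : (0 : ℝ) < N := by linarith
    obtain ⟨h4, h5⟩ := h1 N hNG
    constructor
    · intro a b ha hb hne
      have h6 := h4 (a, fun _ => b) (by
        rw [norm_prod_le_iff]
        constructor
        · refine (pi_norm_le_iff_of_nonneg (by positivity)).2 fun j => ?_
          rw [Int.norm_eq_abs]
          exact ha j
        · refine (pi_norm_le_iff_of_nonneg (by positivity)).2 fun j => ?_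
          rw [Int.norm_eq_abs]
          exact hb) (by
        rw [hval]
        exact div_ne_zero hne h0)
      rw [hval, abs_div, le_div_iff₀ h0'] at h6
      refine le_trans ?_ h6
      have h7 := hbig N hN
      rw [div_le_iff₀ h0'] at h7
      have e1 : (N : ℝ) ^ (-(1 / 2) : ℝ) = (N : ℝ) ^ (1 / 2 : ℝ) * (1 / N) := by
        have e2 : 1 / (N : ℝ) = (N : ℝ) ^ (-1 : ℝ) := by rw [Real.rpow_neg_one, one_div]
        rw [e2, ← Real.rpow_add hN0]
        norm_num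
      rw [e1]
      calc 1 / (N : ℝ) = 1 * (1 / N) := by ring
        _ ≤ ((N : ℝ) ^ (1 / 2 : ℝ) * |θ 0|) * (1 / N) := by
            apply mul_le_mul_of_nonneg_right h7
            positivity
        _ = _ := by ring
    · intro a b ha hb hind M hNM hMA
      have e : (fun i => (∑ j, (a i j : ℝ) * θ j.succ + b i * t) / θ 0) = fun i =>
          ∑ j, (a i j : ℝ) * (θ j.succ / θ 0) + b i * (t / θ 0) := by
        funext i
        rw [add_div, Finset.sum_div]
        congr 1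
        · exact Finset.sum_congr rfl fun j _ => by ring
        · ring
      rw [joint_iff, e]
      refine h5 a b ha hb (fun l hl u => ?_) M hNM hMA
      have h8 := hind l hl u
      intro h9
      apply h8
      rw [← h9]
      refine Finset.sum_congr rfl fun i _ => ?_
      rw [congrFun e i]
  · rw [Set.infinite_iff_exists_gt]
    intro n
    obtain ⟨N, hN, hn⟩ := h2 (max (n + 1) N₀)
    exact ⟨N, ⟨hN, (le_max_right _ _).trans hn⟩, by have := le_max_left (n + 1) N₀; omega⟩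
  · rintro ⟨a, b, hab, h4⟩
    obtain ⟨N₁, hN₁⟩ := h3 ⟨(a, fun _ => b), by
      intro h5
      rw [Prod.ext_iff] at h5
      rcases hab with h6 | h6
      · exact h6 h5.1
      · exact h6 (congrFun h5.2 0), by rw [hval, h4, zero_div]⟩
    exact ⟨max N₁ N₀, fun N hN => ⟨hN₁ N ((le_max_left _ _).trans hN), (le_max_right _ _).trans hN⟩⟩

open Pool.Agent.W472.AC in
/-- all orders -/
theorem perm_meas {m : ℕ} (θ : Fin (m + 1) → ℝ) (σ : Equiv.Perm (Fin (m + 1))) (κ c : ℝ) (h : Meas θ κ c) :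
    Meas (θ ∘ σ) κ c := by
  intro a ha H hH hb
  have h1 := h (fun i => a (σ.symm i)) (fun h0 => ha (by
    funext i
    have := congrFun h0 (σ i)
    simpa using this)) H hH (fun j => hb _)
  refine h1.trans (le_of_eq ?_)
  congr 2
  rw [← Equiv.sum_comp σ]
  exact Finset.sum_congr rfl fun i _ => by simp

open Pool.Agent.W472.AC in
theorem meas_pi (n : ℕ) : ∃ κ : ℝ, 0 ≤ κ ∧ ∃ c : ℝ, 0 < c ∧ Meas (fun i : Fin (n + 1) => Real.pi ^ (i : ℕ)) κ c := by
  obtain ⟨κ, c, hκ, hc, h⟩ := Pool.Agent.TH456.TM.measT_pi n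
  refine ⟨κ, hκ, c, hc, fun a ha H hH hb => ?_⟩
  obtain ⟨P, hP⟩ : ∃ P : ℤ[X], P = ∑ i : Fin (n + 1), C (a i) * X ^ (i : ℕ) := ⟨_, rfl⟩
  have hcoeff : ∀ j : ℕ, P.coeff j = if h : j < n + 1 then a ⟨j, h⟩ else 0 := by
    intro j
    rw [hP, finsetSum_coeff]
    simp only [coeff_C_mul, coeff_X_pow, mul_ite, mul_one, mul_zero]
    split_ifs with h
    · rw [Finset.sum_eq_single (⟨j, h⟩ : Fin (n + 1)) (fun i _ hi => by
        rw [if_neg (fun h2 => hi (Fin.ext h2.symm))]) (fun h2 => absurd (Finset.mem_univ _) h2)]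
      simp
    · exact Finset.sum_eq_zero fun i _ => by
        rw [if_neg (fun h2 => h (by rw [h2]; exact i.2))]
  have hP0 : P ≠ 0 := by
    intro h0
    apply ha
    funext i
    have h1 := hcoeff i
    rw [h0, dif_pos i.2] at h1
    simpa using h1.symm
  have hdeg : P.natDegree ≤ n := by
    rw [natDegree_le_iff_coeff_eq_zero]
    intro j hj
    rw [hcoeff j, dif_neg (by omega)]
  have h1 := h P hP0 hdeg H hH (fun j => by
    rw [hcoeff j]
    split_ifs with h2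
    · exact hb _
    · simpa using by linarith)
  have e : (aeval (Real.pi : ℂ) P : ℂ) = ((∑ i : Fin (n + 1), (a i : ℝ) * Real.pi ^ (i : ℕ) : ℝ) : ℂ) := by
    rw [hP, map_sum]
    push_cast
    refine Finset.sum_congr rfl fun i _ => ?_
    simp
  rw [e, Complex.norm_real, Real.norm_eq_abs] at h1
  exact h1

open Pool.Agent.W472.AC in
theorem meas_pi_two : ∃ κ : ℝ, 0 ≤ κ ∧ ∃ c : ℝ, 0 < c ∧
    Meas (![1, ∑' n : ℕ, 1 / ((n : ℝ) + 1) ^ 3, Real.pi ^ 2] : Fin (2 + 1) → ℝ) κ c := by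
  obtain ⟨κ, hκ, c, hc, h⟩ := Pool.Agent.TH647.NR.meas_pi_zeta
  refine ⟨κ, hκ.le, c, hc, ?_⟩
  have h1 := perm_meas _ (Equiv.swap 1 2) κ c h
  have e : (![1, Real.pi ^ 2, ∑' n : ℕ, 1 / ((n : ℝ) + 1) ^ 3] : Fin (2 + 1) → ℝ) ∘ (Equiv.swap 1 2) =
      (![1, ∑' n : ℕ, 1 / ((n : ℝ) + 1) ^ 3, Real.pi ^ 2] : Fin (2 + 1) → ℝ) := by
    funext i
    fin_cases i <;> rfl
  rw [e] at h1
  exact h1

open Pool.Agent.W472.AC in
theorem meas_pi_four : ∃ κ : ℝ, 0 ≤ κ ∧ ∃ c : ℝ, 0 < c ∧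
    Meas (![1, ∑' n : ℕ, 1 / ((n : ℝ) + 1) ^ 3, Real.pi ^ 4] : Fin (2 + 1) → ℝ) κ c := by
  obtain ⟨c, hc, κ, h⟩ := Pool.Agent.ZF.Mea.pi_all
  refine ⟨κ, Nat.cast_nonneg _, c, hc, fun a ha H hH hb => ?_⟩
  have h1 := h (a 0) (a 1) (a 2) (fun h0 => ha (by
    funext i
    fin_cases i
    · exact h0.1
    · exact h0.2.1
    · exact h0.2.2)) H hH (hb 1) (hb 2)
  rw [Fin.sum_univ_three]
  have e3 : Pool.Agent.H337R2.zr 3 = ∑' n : ℕ, 1 / ((n : ℝ) + 1) ^ 3 := rfl
  have e : (a 0 : ℝ) * (![1, ∑' n : ℕ, 1 / ((n : ℝ) + 1) ^ 3, Real.pi ^ 4] : Fin (2 + 1) → ℝ) 0 +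
      (a 1 : ℝ) * (![1, ∑' n : ℕ, 1 / ((n : ℝ) + 1) ^ 3, Real.pi ^ 4] : Fin (2 + 1) → ℝ) 1 +
      (a 2 : ℝ) * (![1, ∑' n : ℕ, 1 / ((n : ℝ) + 1) ^ 3, Real.pi ^ 4] : Fin (2 + 1) → ℝ) 2 =
      (a 0 : ℝ) + a 1 * Pool.Agent.H337R2.zr 3 + a 2 * Real.pi ^ 4 := by
    rw [e3]
    simp
  rw [e, Real.rpow_natCast]
  rw [div_le_iff₀ (by positivity)] at h1
  linarith

theorem zeta_pos : (0 : ℝ) < ∑' n : ℕ, 1 / ((n : ℝ) + 1) ^ 3 := by
  have h1 : Summable fun n : ℕ => 1 / ((n : ℝ) + 1) ^ 3 := by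
    have := (summable_nat_add_iff 1).2 (Real.summable_one_div_nat_pow.2 (by norm_num : 1 < 3))
    simpa using this
  exact h1.tsum_pos (fun n => by positivity) 0 (by norm_num)

/-- **Theorem.** The numbers `1, ζ(3), π ^ 2`, the numbers `1, ζ(3), π ^ 4` and, for every `n`, the numbers
`1, π, …, π ^ n` satisfy `GoodLaw` in every order. -/
theorem result :
    (∀ σ : Equiv.Perm (Fin (2 + 1)),
      GoodLaw ((![1, ∑' n : ℕ, 1 / ((n : ℝ) + 1) ^ 3, Real.pi ^ 2] : Fin (2 + 1) → ℝ) ∘ σ)) ∧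
    (∀ σ : Equiv.Perm (Fin (2 + 1)),
      GoodLaw ((![1, ∑' n : ℕ, 1 / ((n : ℝ) + 1) ^ 3, Real.pi ^ 4] : Fin (2 + 1) → ℝ) ∘ σ)) ∧
    ∀ (n : ℕ) (σ : Equiv.Perm (Fin (n + 1))), GoodLaw ((fun i : Fin (n + 1) => Real.pi ^ (i : ℕ)) ∘ σ) := by
  have hz := zeta_pos
  refine ⟨fun σ => ?_, fun σ => ?_, fun n σ => ?_⟩
  · obtain ⟨κ, hκ, c, hc, h⟩ := meas_pi_two
    refine law_of_meas _ ?_ ⟨κ, hκ, c, hc, perm_meas _ σ κ c h⟩
    have : ∀ i : Fin (2 + 1), (![1, ∑' n : ℕ, 1 / ((n : ℝ) + 1) ^ 3, Real.pi ^ 2] : Fin (2 + 1) → ℝ) i ≠ 0 := by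
      intro i
      fin_cases i
      · exact one_ne_zero
      · exact hz.ne'
      · exact pow_ne_zero 2 Real.pi_ne_zero
    exact this _
  · obtain ⟨κ, hκ, c, hc, h⟩ := meas_pi_four
    refine law_of_meas _ ?_ ⟨κ, hκ, c, hc, perm_meas _ σ κ c h⟩
    have : ∀ i : Fin (2 + 1), (![1, ∑' n : ℕ, 1 / ((n : ℝ) + 1) ^ 3, Real.pi ^ 4] : Fin (2 + 1) → ℝ) i ≠ 0 := by
      intro i
      fin_cases i
      · exact one_ne_zero
      · exact hz.ne'
      · exact pow_ne_zero 4 Real.pi_ne_zero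
    exact this _
  · obtain ⟨κ, hκ, c, hc, h⟩ := meas_pi n
    exact law_of_meas _ (pow_ne_zero _ Real.pi_ne_zero) ⟨κ, hκ, c, hc, perm_meas _ σ κ c h⟩

end Pool.Agent.Results.MP_c2d7b4_nt.GoodScales
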