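import Pool.Agent.Q127.HB.Laws
import Pool.Agent.H337R2.LZ.Z
import Pool.Agent.H337R2.LZ.Z4

/-!
# Zero-one laws for Hoffman's basis conjecture

A word is a finite tuple of numbers `2` and `3` (`Word`), `wt w` is its weight and `zeta w` its multiple zeta value (`1` for
the empty word). `Zs n` is the `ℚ`-span of all multiple zeta values of weight `n`, `lo N` (`hi N`) the span of all multiple zeta
values of weight `< N` (`> N`), and `d n`, `D N` are the numbers of words of weight `n` and of weight `< N`.

We use Brown's theorem (`Brown`): the words have motivic lifts `z w`, which are linearly independent elements of an integral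
domain `H` over `ℚ` such that `z u z v` is a combination of the words of weight `wt u + wt v`, there is a homomorphism
`per : H → ℝ` of `ℚ`-algebras with `per (z w) = zeta w`, and the words of weight `n` span `Zs n`.

`IndepMod n L`: the values of the words of weight `n` are linearly independent modulo the subspace `L`.
`IndepOn A`: the values of the words with weight in `A` are linearly independent.

Theorem. Let `Conjecture` be Hoffman's basis conjecture, as in `S18393`.

1. It holds if and only if for infinitely many `N` the words of weight `N` are independent modulo the multiple zeta values of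
   lower weight.
2. It holds if and only if for infinitely many `N` the words of weight `N` are independent modulo the multiple zeta values of
   higher weight.
3. If it fails, and `m + 1` is the smallest number such that the words of weight at most `m + 1` are dependent, then `m ≥ 3`,
   the set of all `N` as in 1 is `{0, ..., m}` or `{0, ..., m, m + 2}`, and for all `N > m` the space `Zs N` has dimension at most
   `d N - d (N - m - 1)` modulo lower weights, and all multiple zeta values of weight `< N` together span a space of dimension at
   most `D N - D (N - m - 1)`.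
4. It holds if and only if for every `ε > 0` there are infinitely many `N` such that the multiple zeta values of weight `< N`
   span a space of dimension larger than `(1 - ε)` times the number of the words of weight `< N`.
5. Let `A` be a set of weights such that for every `L` there is `N` such that `A` has at least `L` elements in `[n, n + N)` for
   infinitely many `n` (for example a residue class, or a set of positive upper density). The conjecture holds if and only if
   the words with weight in `A` are independent.
6. If the weights are coloured with finitely many colours, then the conjecture holds if and only if for each colour the words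
   with weights of this colour are independent.
-/

set_option autoImplicit false

open Module Filter

namespace Pool.Agent.Results.MP_c2d7b4_nt.ZeroOneLaws

open Pool.Agent.Q127.HB Pool.Agent.Q263.ZO Pool.Agent.H447R2.MZ

/-- Hoffman's basis conjecture, in the words of `S18393` -/
def Conjecture : Prop :=
    ∀ Z : (r : ℕ) → (Fin r → ℕ) → ℝ,
      (∀ (r : ℕ) (n : Fin r → ℕ),
        Z r n = ∑' k : {k : Fin r → ℕ // StrictAnti k ∧ ∀ i, 0 < k i},
          ∏ i, ((k.1 i : ℝ) ^ (n i))⁻¹) →
      LinearIndependent ℚ
          (fun w : (Σ r : ℕ, {n : Fin r → ℕ // ∀ i, n i = 2 ∨ n i = 3}) => Z w.1 w.2.1) ∧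
        Submodule.span ℚ (Set.range
          (fun w : (Σ r : ℕ, {n : Fin r → ℕ // ∀ i, n i = 2 ∨ n i = 3}) => Z w.1 w.2.1)) =
        Submodule.span ℚ {x : ℝ | ∃ (r : ℕ) (n : Fin r → ℕ),
          (∀ i, 1 ≤ n i) ∧ (∀ h : 0 < r, 2 ≤ n ⟨0, h⟩) ∧ x = Z r n}

theorem conjecture_iff (M : Brown) : Conjecture ↔ LinearIndependent ℚ zeta := by
  constructor
  · intro h
    exact (h (fun r n => ∑' k : {k : Fin r → ℕ // StrictAnti k ∧ ∀ i, 0 < k i},
      ∏ i, ((k.1 i : ℝ) ^ (n i))⁻¹) (fun _ _ => rfl)).1
  · intro h Z hZ
    have e : (fun w : Word => Z w.1 w.2.1) = zeta := by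
      funext w
      exact hZ w.1 w.2.1
    rw [e]
    refine ⟨h, le_antisymm ?_ ?_⟩
    · rw [Submodule.span_le]
      rintro _ ⟨w, rfl⟩
      apply Submodule.subset_span
      refine ⟨w.1, w.2.1, fun i => ?_, fun h => ?_, (hZ w.1 w.2.1).symm⟩
      · rcases w.2.2 i with h | h <;> omega
      · rcases w.2.2 ⟨0, h⟩ with h | h <;> omega
    · rw [Submodule.span_le]
      rintro _ ⟨r, n, h1, h2, rfl⟩
      have h3 : Z r n ∈ Zs (∑ i, n i) := by
        apply Submodule.subset_span
        exact ⟨r, n, h1, h2, rfl, hZ r n⟩
      exact Submodule.span_mono (Set.image_subset_range _ _) (M.span _ h3)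

theorem three (M : Brown) : IndepOn (Set.Iic 3) := by
  apply upTo_of_direct
  · intro n hn
    exact (indepOn_singleton_iff M n).2 (M.toMotivic.low n (by omega))
  · exact Pool.Agent.LZ.Z4.Z4_direct Pool.Agent.LZ.Z3_linind 3 le_rfl

open Classical in
theorem result (M : Brown) :
    -- 1
    (Conjecture ↔ ∃ᶠ N in atTop, IndepMod N (lo N)) ∧
    -- 2
    (Conjecture ↔ ∃ᶠ N in atTop, IndepMod N (hi N)) ∧
    -- 3
    (Conjecture ∨ ∃ m, 3 ≤ m ∧ IndepOn (Set.Iic m) ∧ ¬ IndepOn (Set.Iic (m + 1)) ∧
      ({N | IndepMod N (lo N)} = Set.Iic m ∨ {N | IndepMod N (lo N)} = insert (m + 2) (Set.Iic m)) ∧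
      ∀ N, m < N → finrank ℚ ((Zs N).map (lo N).mkQ) + {w : Word | wt w = N - (m + 1)}.ncard ≤
          {w : Word | wt w = N}.ncard ∧
        finrank ℚ (lo N) + {w : Word | wt w < N - (m + 1)}.ncard ≤ {w : Word | wt w < N}.ncard) ∧
    -- 4
    (Conjecture ↔ ∀ ε : ℝ, 0 < ε →
      ∃ᶠ N in atTop, (1 - ε) * {w : Word | wt w < N}.ncard < finrank ℚ (lo N)) ∧
    -- 5
    (∀ A : Set ℕ, (∀ L, ∃ N, ∀ K, ∃ n ≥ K, L ≤ ((Finset.range N).filter fun i => n + i ∈ A).card) →
      (Conjecture ↔ IndepOn A)) ∧
    -- 6
    (∀ (r : ℕ) (c : ℕ → Fin r), Conjecture ↔ ∀ i, IndepOn (c ⁻¹' {i})) := by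
  have hC := conjecture_iff M
  refine ⟨hC.trans M.iff_lo, hC.trans M.iff_hi, ?_, ?_, fun A hA => hC.trans (M.iff_windows hA),
    fun r c => hC.trans (M.iff_partition r c)⟩
  · rw [hC]
    by_cases h : ∀ m, IndepOn (Set.Iic m)
    · exact Or.inl (indep_of_upTo h)
    · right
      push Not at h
      have hspec := Nat.find_spec h
      have h4 : 4 ≤ Nat.find h := by
        by_contra hlt
        push Not at hlt
        exact hspec ((three M).mono (Set.Iic_subset_Iic.2 (by omega)))
      have hmin : IndepOn (Set.Iic (Nat.find h - 1)) := by
        by_contra hne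
        exact Nat.find_min h (by omega) hne
      have e : Nat.find h - 1 + 1 = Nat.find h := by omega
      have hspec' : ¬ IndepOn (Set.Iic (Nat.find h - 1 + 1)) := by rw [e]; exact hspec
      obtain ⟨h1, h2⟩ := M.first hmin hspec'
      refine ⟨Nat.find h - 1, by omega, hmin, hspec', h2, fun N hN => ⟨?_, ?_⟩⟩
      · have h5 : {w : Word | wt w = N - (Nat.find h - 1 + 1)}.ncard = d (N - (Nat.find h - 1 + 1)) :=
          (finite_ncard _).2
        have h6 : {w : Word | wt w = N}.ncard = d N := (finite_ncard _).2
        rw [h5, h6]
        exact h1 N hN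
      · rw [(D_card _).2, (D_card _).2]
        exact M.total (fun N hN => h1 N (by omega)) N
  · rw [hC, M.iff_total]
    simp only [(D_card _).2]

end Pool.Agent.Results.MP_c2d7b4_nt.ZeroOneLaws
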